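import Pool.Agent.MP_3ee8cb_gt.DZ.Spec
import Pool.Agent.MP_3ee8cb_gt.CZE.EndN

/-! The feet map is an isometry; the distance of the other space. -/

namespace Pool.Agent.MP_3ee8cb_gt.DZ

open DN (Dim dm)

variable [Dim]

open Set Filter Topology MeasureTheory DN DN.SC
open CR (UT dd)
open scoped RealInnerProductSpace

theorem sXW : SXW := by
  intro g C Γ _ _ Φ q _ m ok lk
  refine ⟨ok, q.rp.db.refl, q.rp.db.nonneg, fun x ε hε => ?_⟩
  obtain ⟨r, hr, h⟩ := q.rp.db.upp x ε hε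
  have t : ∀ f : V × V → V, Continuous f → f (x, x) = x → ∀ᶠ p in 𝓝 (x, x), ‖f p - x‖ ≤ r :=
    fun f hf e => ((hf.sub continuous_const).norm.tendsto (x, x)).eventually_le_const
      (by simpa [e] using hr)
  filter_upwards [t _ continuous_fst rfl, t _ continuous_snd rfl] with p h1 h2
  refine (q.rp.db.le_seg _ _).trans ((h _ _ h1 h2).trans_eq ?_)
  rw [← Real.sqrt_sq (norm_nonneg (m.S x _)), ← real_inner_self_eq_norm_sq, ← lk.orth x, ok.RS]

theorem sEND2b : SEND2 := by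
  intro g h C C' Γ Λ _ _ _ _ Φ Ψ ρ F qg qh cg ch dΓ dΛ cj m₀ m lg ν f ok hj lk nb cf ae
  have mn : CR.MinP h Ψ := fun p s t => by
    have e : ∀ r, (Ψ r p).1.1 = (m.Z r (p.1.1, m.S p.1.1 p.1.2)).1 := fun r => by rw [nb.lk.flow]
    have k := nb.yw.had.xe (Ψ s p).1.1 ((t - s) • m.S (Ψ s p).1.1 (Ψ s p).1.2)
    rw [nb.yw.jac.scale, mul_one, nb.lk.flow, ← qh.add, sub_add_cancel] at k
    rw [← nb.dist, k, norm_smul, norm_S nb.yw.ok nb.lk.orth, mul_one, Real.norm_eq_abs,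
      abs_sub_comm]
  have key : ∀ p : UT g, (F p).1.1 = f p.1.1 := fun p => by
    have n1 := norm_S ok lk.orth p
    let s : V → UT g := fun x => ⟨(x, m₀.R x (m₀.S p.1.1 p.1.2)), by
      rw [lk.orth, real_inner_self_eq_norm_sq, n1, one_pow]⟩
    have cs : Continuous s := (continuous_id.prodMk
      (ok.cR.continuous.clm_apply continuous_const)).subtype_mk _
    have e : (fun x => (F (s x)).1.1) = f := (Continuous.ae_eq_iff_eq volume
      (continuous_subtype_val.comp (F.continuous.comp cs)).fst cf).1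
      (ae.mono fun x hx => hx.2 (s x) rfl)
    have : s p.1.1 = p := Subtype.ext (Prod.ext rfl (ok.RS _ _))
    rw [← e]
    simp only [this]
  exact sEND0 g h C C' Γ Λ Φ Ψ ρ F qg qh cg ch dΓ dΛ cj m₀ m ok hj nb.yw.ok nb.yw.jac lk nb.lk mn
    fun p q e => by rw [key, key, e]

end Pool.Agent.MP_3ee8cb_gt.DZ
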