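import Pool.Agent.MP_3ee8cb_gt.DN.Defs

/-! Functions on the unit sphere that are touched from below by flat functions are constant. -/

namespace Pool.Agent.MP_3ee8cb_gt.DZE

open Set Filter Topology MeasureTheory DN
open scoped RealInnerProductSpace

theorem dini {h : ℝ → ℝ} (hc : ContinuousOn h (Icc 0 1))
    (H : ∀ t ∈ Ico (0 : ℝ) 1, ∃ f : ℝ → ℝ, HasDerivAt f 0 t ∧ f t = h t ∧
      ∀ᶠ s in 𝓝[>] t, f s ≤ h s) : h 0 ≤ h 1 := by
  have := image_le_of_liminf_slope_right_le_deriv_boundary (f := fun s => -h s) (a := 0) (b := 1)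
    hc.neg (B := fun _ => -h 0) (B' := fun _ => 0) le_rfl continuousOn_const
    (fun x _ => hasDerivWithinAt_const ..) ?_ (right_mem_Icc.2 zero_le_one)
  · linarith
  intro x hx r hr
  obtain ⟨f, f1, f2, f3⟩ := H x hx
  have h0 := (hasDerivAt_iff_tendsto_slope_left_right.1 f1.neg).2
  refine Eventually.frequently ?_
  filter_upwards [h0.eventually_lt_const (by simpa using hr), f3, self_mem_nhdsWithin]
    with s h1 h2 h3
  refine lt_of_le_of_lt ?_ h1
  have h4 : 0 < s - x := sub_pos.2 h3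
  simp only [slope_def_field, Pi.neg_apply]
  gcongr
  linarith

variable [Dim]

/-- A function on the sphere is flat at `w`. -/
def Flat (f : V → ℝ) (w : V) : Prop := ∀ (c : ℝ → V) (t : ℝ), c t = w →
  (∀ᶠ s in 𝓝 t, ‖c s‖ = 1) → DifferentiableAt ℝ c t → HasDerivAt (fun s => f (c s)) 0 t

theorem flat_min {f : V → ℝ} {w : V} (hf : DifferentiableAt ℝ f w)
    (h : ∀ v, ‖v‖ = 1 → f w ≤ f v) : Flat f w := by
  intro c t h1 h2 h3
  subst h1
  have h4 : DifferentiableAt ℝ (fun s => f (c s)) t := hf.comp t h3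
  have h5 : IsLocalMin (fun s => f (c s)) t := h2.mono fun s hs => h _ hs
  exact h5.deriv_eq_zero ▸ h4.hasDerivAt

theorem flat_max {f : V → ℝ} {w : V} (hf : DifferentiableAt ℝ f w)
    (h : ∀ v, ‖v‖ = 1 → f v ≤ f w) : Flat f w := by
  intro c t h1 h2 h3
  subst h1
  have h4 : DifferentiableAt ℝ (fun s => f (c s)) t := hf.comp t h3
  have h5 : IsLocalMax (fun s => f (c s)) t := h2.mono fun s hs => h _ hs
  exact h5.deriv_eq_zero ▸ h4.hasDerivAt

theorem Flat.gap {a b : V → ℝ} {w : V} (ha : Flat a w) (hb : Flat b w) :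
    Flat (fun v => Real.exp (a v) - Real.exp (b v)) w := by
  intro c t h1 h2 h3
  exact ((ha c t h1 h2 h3).exp.sub (hb c t h1 h2 h3).exp).congr_deriv (by simp)

theorem seg_ne {w v : V} (hw : ‖w‖ = 1) (hv : ‖v‖ = 1) (hn : v ≠ -w) {s : ℝ}
    (hs : s ∈ Icc (0 : ℝ) 1) : w + s • (v - w) ≠ 0 := by
  intro h
  have h1 : s • v = -((1 - s) • w) := by
    rw [eq_neg_iff_add_eq_zero, ← h]; module
  have h2 := congrArg norm h1
  rw [norm_neg, norm_smul, norm_smul, hw, hv, Real.norm_of_nonneg hs.1,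
    Real.norm_of_nonneg (sub_nonneg.2 hs.2)] at h2
  have h3 : s = 1 / 2 := by linarith
  subst h3
  apply hn
  have h4 : v = (2 : ℝ) • ((1 / 2 : ℝ) • v) := by module
  rw [h4, h1]; module

theorem const_le {U : V → ℝ} (hc : ContinuousOn U {w | ‖w‖ = 1})
    (H : ∀ w, ‖w‖ = 1 → ∃ f : V → ℝ, Flat f w ∧ f w = U w ∧ ∀ v, ‖v‖ = 1 → f v ≤ U v)
    {w v : V} (hw : ‖w‖ = 1) (hv : ‖v‖ = 1) (hn : v ≠ -w) : U w ≤ U v := by
  set l : ℝ → V := fun s => w + s • (v - w) with hl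
  have l1 : Differentiable ℝ l := by fun_prop
  have u1 : ∀ s, l s ≠ 0 → ‖‖l s‖⁻¹ • l s‖ = 1 := fun s hs => by
    rw [norm_smul, norm_inv, norm_norm, inv_mul_cancel₀ (norm_ne_zero_iff.2 hs)]
  have u2 : ∀ s, l s ≠ 0 → DifferentiableAt ℝ (fun s => ‖l s‖⁻¹ • l s) s := fun s hs =>
    (((l1 s).norm ℝ hs).inv (norm_ne_zero_iff.2 hs)).smul (l1 s)
  have := dini (h := fun s => U (‖l s‖⁻¹ • l s)) ?_ ?_
  · simpa [hl, hw, hv] using this
  · exact hc.comp (fun s hs => (u2 s (seg_ne hw hv hn hs)).continuousAt.continuousWithinAt)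
      fun s hs => u1 s (seg_ne hw hv hn hs)
  · intro t ht
    have h0 := seg_ne hw hv hn (Ico_subset_Icc_self ht)
    have h1 : ∀ᶠ s in 𝓝 t, ‖‖l s‖⁻¹ • l s‖ = 1 :=
      ((l1 t).continuousAt.eventually_ne h0).mono u1
    obtain ⟨f, f1, f2, f3⟩ := H _ (u1 t h0)
    exact ⟨_, f1 _ t rfl h1 (u2 t h0), f2, (h1.mono fun s hs => f3 _ hs).filter_mono
      nhdsWithin_le_nhds⟩

theorem const {U : V → ℝ} (hc : ContinuousOn U {w | ‖w‖ = 1})
    (H : ∀ w, ‖w‖ = 1 → ∃ f : V → ℝ, Flat f w ∧ f w = U w ∧ ∀ v, ‖v‖ = 1 → f v ≤ U v)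
    {w v : V} (hw : ‖w‖ = 1) (hv : ‖v‖ = 1) : U w = U v := by
  have key : ∀ w v : V, ‖w‖ = 1 → ‖v‖ = 1 → v ≠ -w → U w = U v := fun w v hw hv hn =>
    le_antisymm (const_le hc H hw hv hn) (const_le hc H hv hw fun h => hn (by rw [h, neg_neg]))
  by_cases hn : v = -w
  swap
  · exact key w v hw hv hn
  have ex : ∃ e : V, ‖e‖ = 1 ∧ e ≠ w ∧ e ≠ -w := by
    by_contra! h
    have z : ∀ i : Fin dm, w = EuclideanSpace.single i 1 ∨ w = -EuclideanSpace.single i 1 :=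
      fun i => by
        by_cases h1 : EuclideanSpace.single i (1 : ℝ) = w
        · exact .inl h1.symm
        · exact .inr (by rw [h _ (by simp) h1, neg_neg])
    have z0 : w 1 = 0 := by rcases z 0 with h1 | h1 <;> rw [h1] <;> simp
    rcases z 1 with h1 | h1 <;> rw [h1] at z0 <;> simp at z0
  obtain ⟨e, e1, e2, e3⟩ := ex
  rw [key w e hw e1 e3, key v e hv e1 (by rwa [hn, neg_neg])]

/-- A closed condition that holds for almost all directions holds for all. -/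
theorem all_of_ae {A : Set V} (hA : IsClosed A)
    (h : ∀ᵐ w ∂(volume : Measure V), 1 ≤ ‖w‖ → ‖w‖ ≤ 2 → ‖w‖⁻¹ • w ∈ A) {w : V}
    (hw : ‖w‖ = 1) : w ∈ A := by
  have h1 : (3 / 2 : ℝ) • w ∈ closure {w : V | 1 ≤ ‖w‖ → ‖w‖ ≤ 2 → ‖w‖⁻¹ • w ∈ A} :=
    Measure.dense_of_ae h _
  have n1 : ‖(3 / 2 : ℝ) • w‖ = 3 / 2 := by rw [norm_smul, hw]; norm_num
  have c1 : ContinuousAt (fun v : V => ‖v‖⁻¹ • v) ((3 / 2 : ℝ) • w) :=
    (continuous_norm.continuousAt.inv₀ (by rw [n1]; norm_num)).smul continuousAt_id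
  have h2 : (‖(3 / 2 : ℝ) • w‖⁻¹ • (3 / 2 : ℝ) • w) = w := by
    rw [n1, smul_smul]; norm_num
  rw [← h2]
  refine hA.mem_of_frequently_of_tendsto ?_ c1
  have e1 : ∀ᶠ v : V in 𝓝 ((3 / 2 : ℝ) • w), 1 < ‖v‖ :=
    continuous_norm.continuousAt.eventually_const_lt (lt_of_lt_of_eq (by norm_num) n1.symm)
  have e2 : ∀ᶠ v : V in 𝓝 ((3 / 2 : ℝ) • w), ‖v‖ < 2 :=
    continuous_norm.continuousAt.eventually_lt_const (lt_of_eq_of_lt n1 (by norm_num))
  exact ((mem_closure_iff_frequently.1 h1).and_eventually (e1.and e2)).mono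
    fun v hv => hv.1 hv.2.1.le hv.2.2.le

omit [Dim] in
theorem closed_ex {P W : Type} [TopologicalSpace P] [TopologicalSpace W] {K : Set P}
    (hK : IsCompact K) {S : Set (P × W)} (hS : IsClosed S) :
    IsClosed {w | ∃ p ∈ K, (p, w) ∈ S} := by
  have := isCompact_iff_compactSpace.1 hK
  have h := isClosedMap_snd_of_compactSpace (X := K) (Y := W) _
    (hS.preimage (f := fun q : K × W => (q.1.1, q.2)) (by fun_prop))
  have e : {w | ∃ p ∈ K, (p, w) ∈ S} = Prod.snd '' ((fun q : K × W => (q.1.1, q.2)) ⁻¹' S) := by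
    ext w
    constructor
    · rintro ⟨p, h1, h2⟩
      exact ⟨(⟨p, h1⟩, w), h2, rfl⟩
    · rintro ⟨q, h1, rfl⟩
      exact ⟨q.1, q.1.2, h1⟩
  rwa [e]

omit [Dim] in
/-- Two opposite lower bounds multiply to at least one. -/
theorem two_lb {L a s t : ℝ} (ha : |a| ≤ 1) (h1 : Real.cosh L - a * Real.sinh L ≤ Real.exp s)
    (h2 : Real.cosh L + a * Real.sinh L ≤ Real.exp t) : 0 ≤ s + t := by
  have c1 := Real.cosh_sq L
  have c2 := Real.cosh_pos L
  have a2 : a ^ 2 ≤ 1 := by rw [← sq_abs]; exact pow_le_one₀ (abs_nonneg a) ha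
  have k : 1 ≤ (Real.cosh L - a * Real.sinh L) * (Real.cosh L + a * Real.sinh L) := by
    nlinarith [mul_le_mul_of_nonneg_right a2 (sq_nonneg (Real.sinh L))]
  have p1 : 0 < Real.cosh L - a * Real.sinh L := by
    by_contra! h
    nlinarith [mul_nonneg_of_nonpos_of_nonpos h h]
  have p2 : 0 < Real.cosh L + a * Real.sinh L := by
    by_contra! h
    nlinarith [mul_nonneg p1.le (neg_nonneg.2 h)]
  have := k.trans (mul_le_mul h1 h2 p2.le (Real.exp_pos s).le)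
  rwa [← Real.exp_add, Real.one_le_exp_iff] at this

omit [Dim] in
theorem two_zero {L a : ℝ} (h1 : Real.cosh L - a * Real.sinh L ≤ 1)
    (h2 : Real.cosh L + a * Real.sinh L ≤ 1) : L = 0 := by
  by_contra h
  have := Real.one_lt_cosh.2 h
  linarith

end Pool.Agent.MP_3ee8cb_gt.DZE
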